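import Pool.Agent.Helper38.WY.Goals2
import Pool.Agent.Helper91.PP.PSEP
import Pool.Agent.Helper32.RD.VAL

/-!
# Project WY (MP_fc6b1e_nt), packet Y_TOR, part A

The shift operator, the operator `pol`, the absolute value of an embedding.
-/

set_option autoImplicit false

namespace Pool.Agent.Helper19.WY

open NumberField Polynomial Module IsDedekindDomain
open Pool.Agent.Helper51.RP Pool.Agent.Helper42.PP
open Pool.Agent.Helper91.PP (VG cls tq cls_eq_zero cls_surj cls_pow cls_pol tpow ex_aux)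
open Pool.Agent.Helper32.RDV (wt norm_le_one_of_val val_of_norm norm_p')

section shift

variable {p : ℕ}

/-- The shift operator. -/
def sh (p : ℕ) : (ℕ → ZMod p) →ₗ[ZMod p] (ℕ → ZMod p) where
  toFun a l := a (l + 1)
  map_add' _ _ := rfl
  map_smul' _ _ := rfl

theorem sh_pow (j : ℕ) (a : ℕ → ZMod p) (l : ℕ) : (sh p ^ j) a l = a (l + j) := by
  induction j generalizing l with
  | zero => rfl
  | succ j ih =>
    rw [pow_succ', Module.End.mul_apply]
    show (sh p ^ j) a (l + 1) = _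
    rw [ih]
    congr 1
    omega

theorem aev (c : (ZMod p)[X]) (a : ℕ → ZMod p) (l : ℕ) :
    aeval (sh p) c a l = ∑ j ∈ c.support, c.coeff j * a (l + j) := by
  rw [aeval_def, eval₂_eq_sum, sum_def, LinearMap.sum_apply, Finset.sum_apply]
  refine Finset.sum_congr rfl fun j _ => ?_
  rw [Module.End.mul_apply, Module.algebraMap_end_apply, Pi.smul_apply, sh_pow, smul_eq_mul]

theorem dvd_of_rec [Fact p.Prime] {P E : (ZMod p)[X]} {a : ℕ → ZMod p} {d : ℕ} (hd : 0 < d)
    (h1 : ∀ l, 0 < l → l < d → a l = 0) (h2 : a d ≠ 0) (h3 : ∀ l, a (l + d) = a d * a l)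
    (h4 : P ∣ X ^ d - C (a d)) (h5 : ∀ l, ∑ j ∈ E.support, E.coeff j * a (l + j) = 0) :
    P ∣ E := by
  set Q : (ZMod p)[X] := X ^ d - C (a d) with hQ
  have hQm : Q.Monic := monic_X_pow_sub_C _ hd.ne'
  have hQd : Q.natDegree = d := natDegree_X_pow_sub_C
  have hQa : aeval (sh p) Q a = 0 := by
    funext l
    rw [hQ, map_sub, map_pow, aeval_X, aeval_C, LinearMap.sub_apply, Pi.sub_apply, sh_pow,
      Module.algebraMap_end_apply, Pi.smul_apply, h3, smul_eq_mul, sub_self]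
    rfl
  have hEa : aeval (sh p) E a = 0 := by
    funext l
    rw [aev]
    exact h5 l
  have hr : aeval (sh p) (E %ₘ Q) a = 0 := by
    have h6 : E %ₘ Q = E - (E /ₘ Q) * Q := by
      have := modByMonic_add_div E Q
      rw [mul_comm] at this
      exact eq_sub_of_add_eq this
    rw [h6, map_sub, map_mul, LinearMap.sub_apply, Module.End.mul_apply, hQa, hEa, map_zero,
      sub_zero]
  have h0 : E %ₘ Q = 0 := by
    by_contra hne
    have hdeg : (E %ₘ Q).natDegree < d := by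
      have h7 := natDegree_modByMonic_lt E hQm (by
        intro h1Q
        rw [h1Q, natDegree_one] at hQd
        omega)
      rwa [hQd] at h7
    set R := E %ₘ Q with hR
    have h8 := congrFun hr (d - R.natDegree)
    rw [aev, Finset.sum_eq_single R.natDegree] at h8
    · rw [Nat.sub_add_cancel hdeg.le] at h8
      have h9 : R.coeff R.natDegree ≠ 0 := by
        rw [coeff_natDegree, Ne, leadingCoeff_eq_zero]
        exact hne
      exact mul_ne_zero h9 h2 h8
    · intro j hj hjne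
      have h9 : j ≤ R.natDegree := le_natDegree_of_mem_supp j hj
      rw [h1 _ (by omega) (by omega), mul_zero]
    · intro h9
      exact absurd (natDegree_mem_support_of_nonzero hne) h9
  exact h4.trans ((modByMonic_eq_zero_iff_dvd hQm).1 h0)

end shift

section pol

variable {p : ℕ} [hp : Fact p.Prime] {K M : Type} [Field K] [Field M] [Algebra K M]

theorem pw_aux {m : ℕ} {δ : M ≃ₐ[K] M} (hδ : δ ^ m = 1) {P Q : (ZMod p)[X]}
    (h : P * Q = X ^ m - 1) (G : Subgroup Mˣ) [Module (ZMod p) (VG G)]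
    (T : VG G →ₗ[ZMod p] VG G) (hT : ∀ x, T (cls G x) = cls G (act δ x)) (x : Mˣ) :
    pol P δ (pol Q δ x) ∈ G := by
  have e : aeval T P (aeval T Q (cls G x)) = aeval T (P * Q) (cls G x) := by
    rw [map_mul (aeval T)]
    rfl
  rw [← cls_eq_zero, cls_pol δ G T hT, cls_pol δ G T hT, e, h, map_sub, map_pow, aeval_X,
    map_one, LinearMap.sub_apply, tpow δ G T hT, hδ]
  exact sub_self _

theorem pw_pol {m : ℕ} {δ : M ≃ₐ[K] M} (hδ : δ ^ m = 1) {P Q : (ZMod p)[X]}
    (h : P * Q = X ^ m - 1) (x : Mˣ) : Pw p (pol P δ (pol Q δ x)) := by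
  let G : Subgroup Mˣ := (powMonoidHom p : Mˣ →* Mˣ).range
  have hG : ∀ x, x ∈ G ↔ Pw p x := fun x => ⟨fun ⟨y, hy⟩ => ⟨y, hy.symm⟩, fun ⟨y, hy⟩ => ⟨y, hy.symm⟩⟩
  have hs : ∀ x ∈ G, act δ x ∈ G := by
    intro x hx
    obtain ⟨y, rfl⟩ := (hG x).1 hx
    exact (hG _).2 ⟨act δ y, map_pow _ _ _⟩
  have hp0 : ∀ v : VG G, p • v = 0 := by
    intro v
    obtain ⟨x, rfl⟩ := cls_surj G v
    rw [← cls_pow, cls_eq_zero]
    exact (hG _).2 ⟨x, rfl⟩
  let i1 : Module (ZMod p) (VG G) := AddCommGroup.zmodModule hp0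
  obtain ⟨T, hT⟩ := ex_aux (p := p) δ G hs
  exact (hG _).1 (pw_aux hδ h G T hT x)

end pol

section wt

variable {p : ℕ} [hp : Fact p.Prime] {k : Type} [NormedField k] [NormedAlgebra ℚ_[p] k]
  [IsUltrametricDist k] {M : Type} [Field M] [NumberField M]

theorem norm_le_one_iff (τ : M →+* k) (x : M) :
    ‖τ x‖ ≤ 1 ↔ (wt p τ).valuation M x ≤ 1 := by
  constructor
  · intro h
    rcases h.lt_or_eq with h1 | h1
    · by_contra hc
      rw [not_le] at hc
      have hx0 : x ≠ 0 := by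
        rintro rfl
        rw [map_zero] at hc
        exact absurd hc (not_lt.2 zero_le)
      have h2 : (wt p τ).valuation M x⁻¹ ≤ 1 := by
        rw [map_inv₀]
        exact inv_le_one_of_one_le₀ hc.le
      have h3 := norm_le_one_of_val τ h2
      rw [map_inv₀, norm_inv] at h3
      have h4 : 0 < ‖τ x‖ := norm_pos_iff.2 ((_root_.map_ne_zero τ).2 hx0)
      have h5 := (one_lt_inv₀ h4).2 h1
      linarith
    · exact (val_of_norm τ h1).le
  · exact norm_le_one_of_val τ

/-- Embeddings which induce the same prime induce the same absolute value. -/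
theorem norm_eq_of_wt {τ τ' : M →+* k} (h : wt p τ = wt p τ') (x : M) : ‖τ x‖ = ‖τ' x‖ := by
  have h1 : ∀ y : M, ‖τ y‖ ≤ 1 ↔ ‖τ' y‖ ≤ 1 := by
    intro y
    rw [norm_le_one_iff (p := p), norm_le_one_iff (p := p), h]
  have hp1 : (1 : ℝ) < p := by exact_mod_cast hp.out.one_lt
  have hpn : ∀ (τ : M →+* k), ‖τ (p : M)‖ = (p : ℝ)⁻¹ := by
    intro τ
    rw [map_natCast, norm_p' (p := p), one_div]
  by_cases hx : x = 0
  · rw [hx, map_zero, map_zero]
  have key : ∀ (σ σ' : M →+* k), (∀ y : M, ‖σ y‖ ≤ 1 ↔ ‖σ' y‖ ≤ 1) → ‖σ x‖ ≤ ‖σ' x‖ := by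
    intro σ σ' hσ
    have hs : 0 < ‖σ x‖ := norm_pos_iff.2 ((_root_.map_ne_zero σ).2 hx)
    have hs' : 0 < ‖σ' x‖ := norm_pos_iff.2 ((_root_.map_ne_zero σ').2 hx)
    by_contra hc
    rw [not_le] at hc
    -- choose `n` with `(a / b) ^ n > p`
    have h2 : 1 < ‖σ x‖ / ‖σ' x‖ := by rwa [one_lt_div hs']
    obtain ⟨n, hn⟩ := pow_unbounded_of_one_lt (p : ℝ) h2
    rw [div_pow, lt_div_iff₀ (pow_pos hs' n)] at hn
    -- an integer `j` with `p ^ (j-1) < b ^ n ≤ p ^ j`
    obtain ⟨j, hj1, hj2⟩ := exists_mem_Ioc_zpow (pow_pos hs' n) hp1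
    have h3 : ‖σ' (x ^ n * (p : M) ^ (j + 1))‖ ≤ 1 := by
      rw [map_mul, map_pow, norm_mul, norm_pow, map_zpow₀, norm_zpow, hpn, inv_zpow]
      rw [mul_inv_le_iff₀ (by positivity), one_mul]
      exact hj2
    have h4 := (hσ _).2 h3
    rw [map_mul, map_pow, norm_mul, norm_pow, map_zpow₀, norm_zpow, hpn, inv_zpow,
      mul_inv_le_iff₀ (by positivity), one_mul] at h4
    have h5 : (p : ℝ) ^ (j + 1) < ‖σ x‖ ^ n := by
      refine lt_trans ?_ hn
      rw [zpow_add_one₀ (by positivity), mul_comm]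
      exact mul_lt_mul_of_pos_left hj1 (by positivity)
    linarith
  exact le_antisymm (key τ τ' h1) (key τ' τ fun y => (h1 y).symm)

end wt

end Pool.Agent.Helper19.WY
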