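import Pool.Agent.Helper19.WY.TorA
import Pool.Agent.Helper59.RP.BIN
import Pool.Agent.Helper90.RP.SUB

/-!
# Project WY (MP_fc6b1e_nt), packet Y_TOR, part B

Choice of an element close to a root of unity at one place and close to `1` at the others.
-/

set_option autoImplicit false

namespace Pool.Agent.Helper19.WY

open NumberField Polynomial Module IsDedekindDomain
open Pool.Agent.Helper51.RP Pool.Agent.Helper42.PP
open Pool.Agent.Helper32.RDV (wt norm_le_one_of_val val_of_norm norm_p' weakApproxUnits wt_p)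
open Pool.Agent.Helper51.SigLeo (IwasawaLog)

section norm

variable {k : Type} [NormedField k] [IsUltrametricDist k]

theorem pow_sub_le {A B : k} (hA : ‖A‖ ≤ 1) (hB : ‖B‖ ≤ 1) (n : ℕ) :
    ‖A ^ n - B ^ n‖ ≤ ‖A - B‖ := by
  induction n with
  | zero =>
    rw [pow_zero, pow_zero, sub_self, norm_zero]
    exact norm_nonneg _
  | succ n ih =>
    have e : A ^ (n + 1) - B ^ (n + 1) = A ^ n * (A - B) + (A ^ n - B ^ n) * B := by ring
    rw [e]
    refine (IsUltrametricDist.norm_add_le_max _ _).trans (max_le ?_ ?_)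
    · rw [norm_mul, norm_pow]
      exact mul_le_of_le_one_left (norm_nonneg _) (pow_le_one₀ (norm_nonneg _) hA)
    · rw [norm_mul]
      exact (mul_le_of_le_one_right (norm_nonneg _) hB).trans ih

theorem norm_one_of_close {u v : k} (hv : ‖v‖ = 1) (h : ‖u - v‖ < 1) : ‖u‖ = 1 := by
  have h5 : ‖(u - v) + v‖ = max ‖u - v‖ ‖v‖ :=
    IsUltrametricDist.norm_add_eq_max_of_norm_ne_norm (by rw [hv]; exact h.ne)
  rw [sub_add_cancel, hv, max_eq_right h.le] at h5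
  exact h5

theorem sub_trans {u v w : k} {r : ℝ} (h1 : ‖u - v‖ ≤ r) (h2 : ‖v - w‖ ≤ r) : ‖u - w‖ ≤ r := by
  have e : u - w = (u - v) + (v - w) := by ring
  rw [e]
  exact (IsUltrametricDist.norm_add_le_max _ _).trans (max_le h1 h2)

end norm

section log

variable {p : ℕ} {k : Type} [NormedField k] (L : IwasawaLog p k)

theorem L_pow (u : kˣ) (n : ℕ) : L.toFun (u ^ n) = n * L.toFun u := by
  induction n with
  | zero => rw [pow_zero, Pool.Agent.Helper90.RP.L_one, Nat.cast_zero, zero_mul]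
  | succ n ih => rw [pow_succ, L.map_mul, ih, Nat.cast_succ, add_mul, one_mul]

end log

section small

variable {p : ℕ} [hp : Fact p.Prime] {k : Type} [NormedField k] [NormedAlgebra ℚ_[p] k]
  [IsUltrametricDist k]

theorem small_of_val {M : Type} [Field M] [NumberField M] (τ : M →+* k) {b : M} (n : ℕ)
    (hb : (wt p τ).valuation M b ≤ (wt p τ).valuation M ((p : M) ^ n)) :
    ‖τ b‖ ≤ (1 / p : ℝ) ^ n := by
  have hp0 : (p : M) ≠ 0 := Nat.cast_ne_zero.2 hp.out.ne_zero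
  have h1 : (wt p τ).valuation M (b / (p : M) ^ n) ≤ 1 := by
    rw [map_div₀]
    exact div_le_one_of_le₀ hb zero_le
  have h2 := norm_le_one_of_val τ h1
  have hpp : (0 : ℝ) < 1 / p := by
    have := hp.out.pos
    positivity
  rw [map_div₀, map_pow, map_natCast, norm_div, norm_pow, norm_p' (p := p)] at h2
  rw [div_le_iff₀ (by positivity)] at h2
  linarith

theorem q_bd (p : ℕ) [hp : Fact p.Prime] : (0 : ℝ) < 1 / p ∧ (1 / p : ℝ) < 1 := by
  have hp1 : (1 : ℝ) < p := by exact_mod_cast hp.out.one_lt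
  refine ⟨by positivity, ?_⟩
  rw [div_lt_one (by linarith)]
  exact hp1

variable {K M : Type} [Field K] [Field M] [NumberField M] [Algebra K M]

/-- An element close to `ζ` at `τ` and close to `1` at the other places. -/
theorem ex_close {δ : M ≃ₐ[K] M} {T : Set (K →+* k)} {S : Set (HeightOneSpectrum (𝓞 M))}
    {𝔪₀ : Ideal (𝓞 M)} {v : Mˣ → HeightOneSpectrum (𝓞 M) → ZMod p} (hS : LSys δ T S 𝔪₀ v)
    (τ : M →+* k) {ζ : k} (hζ : ‖ζ‖ = 1) (hζc : ζ ∈ closure (Set.range τ)) (n : ℕ) (hn : 0 < n) :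
    ∃ x : Mˣ, ‖τ (x : M) - ζ‖ ≤ (1 / p : ℝ) ^ n ∧
      ∀ τ' : M →+* k, wt p τ' ≠ wt p τ → ‖τ' (x : M) - 1‖ ≤ (1 / p : ℝ) ^ n := by
  classical
  obtain ⟨q0, q1⟩ := q_bd p
  have hqn : (0 : ℝ) < (1 / p : ℝ) ^ n := by positivity
  have hqn1 : (1 / p : ℝ) ^ n < 1 := pow_lt_one₀ q0.le q1 hn.ne'
  have hp0 : (p : M) ≠ 0 := Nat.cast_ne_zero.2 hp.out.ne_zero
  obtain ⟨_, ⟨z, rfl⟩, hz⟩ := Metric.mem_closure_iff.1 hζc _ hqn
  rw [dist_eq_norm] at hz
  have hz0 : z ≠ 0 := by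
    rintro rfl
    rw [map_zero, sub_zero, hζ] at hz
    linarith
  obtain ⟨x, hx⟩ := weakApproxUnits hS.fin.toFinset
    (fun w => if w = wt p τ then Units.mk0 z hz0 else 1)
    (fun w => w.valuation M ((p : M) ^ n))
    (fun w => by rw [Ne, map_eq_zero]; exact pow_ne_zero _ hp0)
  refine ⟨x, ?_, ?_⟩
  · have h1 := (hx (wt p τ) (hS.fin.mem_toFinset.2 (hS.abp _ (wt_p τ)))).1
    rw [if_pos rfl] at h1
    have h2 := small_of_val τ n h1
    rw [map_sub, Units.val_mk0] at h2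
    refine sub_trans h2 ?_
    rw [norm_sub_rev]
    exact hz.le
  · intro τ' hτ'
    have h1 := (hx (wt p τ') (hS.fin.mem_toFinset.2 (hS.abp _ (wt_p τ')))).1
    rw [if_neg hτ'] at h1
    have h2 := small_of_val τ' n h1
    rw [map_sub, Units.val_one, map_one] at h2
    exact h2

theorem choose_x {δ : M ≃ₐ[K] M} {T : Set (K →+* k)} {S : Set (HeightOneSpectrum (𝓞 M))}
    {𝔪₀ : Ideal (𝓞 M)} {v : Mˣ → HeightOneSpectrum (𝓞 M) → ZMod p} (hS : LSys δ T S 𝔪₀ v)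
    (L : IwasawaLog p k) {τ : M →+* k} (hτ : τ ∈ (above T : Set (M →+* k))) {ζ : k} {a : ℕ}
    (hζ : ζ ^ p ^ (a + 1) = 1) (hζc : ζ ∈ closure (Set.range τ)) :
    ∃ x : Mˣ, (∀ w ∈ S, v x w = 0) ∧ LocSig L (above T : Set (M →+* k)) x ∧
      ‖τ (x : M) - ζ‖ ≤ (1 / p : ℝ) ^ 3 ∧
      ∀ τ' ∈ (above T : Set (M →+* k)), wt p τ' ≠ wt p τ → ‖τ' (x : M) - 1‖ ≤ (1 / p : ℝ) ^ 3 := by
  obtain ⟨q0, q1⟩ := q_bd p
  have hpa : p ^ (a + 1) ≠ 0 := pow_ne_zero _ hp.out.ne_zero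
  have hζn : ‖ζ‖ = 1 := by
    have h1 : ‖ζ‖ ^ p ^ (a + 1) = 1 := by rw [← norm_pow, hζ, norm_one]
    exact (pow_eq_one_iff_of_nonneg (norm_nonneg _) hpa).1 h1
  have hlt : ∀ n : ℕ, 0 < n → (1 / p : ℝ) ^ n < 1 := fun n hn => pow_lt_one₀ q0.le q1 hn.ne'
  have hle : ∀ n m : ℕ, m ≤ n → (1 / p : ℝ) ^ n ≤ (1 / p : ℝ) ^ m := fun n m h =>
    pow_le_pow_of_le_one q0.le q1.le h
  obtain ⟨x₀, hx1, hx2⟩ := ex_close hS τ hζn hζc 3 (by norm_num)
  -- norms of an element close to `ζ` and `1`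
  have hnrm : ∀ (n : ℕ) (x : Mˣ), 0 < n → ‖τ (x : M) - ζ‖ ≤ (1 / p : ℝ) ^ n →
      (∀ τ' : M →+* k, wt p τ' ≠ wt p τ → ‖τ' (x : M) - 1‖ ≤ (1 / p : ℝ) ^ n) →
      ∀ τ' : M →+* k, ‖τ' (x : M)‖ = 1 := by
    intro n x hn h1 h2 τ'
    by_cases h : wt p τ' = wt p τ
    · rw [norm_eq_of_wt h]
      exact norm_one_of_close hζn (h1.trans_lt (hlt n hn))
    · exact norm_one_of_close norm_one ((h2 τ' h).trans_lt (hlt n hn))
  have hx₀n := hnrm 3 x₀ (by norm_num) hx1 hx2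
  obtain ⟨x, hxv, hxa⟩ := hS.approx x₀ fun τ' _ => hx₀n τ'
  have hxx : ∀ τ' ∈ (above T : Set (M →+* k)), ‖τ' (x : M) - τ' (x₀ : M)‖ ≤ (1 / p : ℝ) ^ 3 := by
    intro τ' h
    have h1 := hxa τ' h
    have hne : τ' (x₀ : M) ≠ 0 := (_root_.map_ne_zero τ').2 x₀.ne_zero
    have e : τ' (x : M) - τ' (x₀ : M) = τ' (x₀ : M) * (τ' ((x / x₀ : Mˣ) : M) - 1) := by
      rw [Units.val_div_eq_div_val, map_div₀]
      field_simp
    rw [e, norm_mul, hx₀n τ', one_mul]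
    exact h1
  have hxτ : ‖τ (x : M) - ζ‖ ≤ (1 / p : ℝ) ^ 3 := sub_trans (hxx τ hτ) hx1
  have hxτ' : ∀ τ' ∈ (above T : Set (M →+* k)), wt p τ' ≠ wt p τ →
      ‖τ' (x : M) - 1‖ ≤ (1 / p : ℝ) ^ 3 := fun τ' h h' => sub_trans (hxx τ' h) (hx2 τ' h')
  refine ⟨x, hxv, ?_, hxτ, hxτ'⟩
  intro N
  obtain ⟨z, hz1, hz2⟩ := ex_close hS τ hζn hζc (N + a + 4) (by omega)
  have hzn := hnrm (N + a + 4) z (by omega) hz1 hz2
  -- the logarithms of `z`
  have hsig : SigSmall L (above T : Set (M →+* k)) N z := by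
    intro τ' hτ'
    refine ⟨hzn τ', ?_⟩
    by_cases h : wt p τ' = wt p τ
    · set u : kˣ := Units.map (τ' : M →* k) z with hu
      have hu' : ((u ^ p ^ (a + 1) : kˣ) : k) - 1 = τ' ((z : M) ^ p ^ (a + 1) - 1) := by
        rw [Units.val_pow_eq_pow_val, map_sub, map_pow, map_one]
        rfl
      have h1 : ‖((u ^ p ^ (a + 1) : kˣ) : k) - 1‖ ≤ (1 / p : ℝ) ^ (N + a + 4) := by
        rw [hu', norm_eq_of_wt h, map_sub, map_pow, map_one, ← hζ]
        exact (pow_sub_le (hzn τ).le hζn.le _).trans hz1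
      have h2 := Pool.Agent.Helper59.RP.log_small L (u ^ p ^ (a + 1)) (N + a + 4) (by omega) h1
      rw [L_pow, norm_mul, Nat.cast_pow, norm_pow, norm_p' (p := p)] at h2
      have h3 : (0 : ℝ) < (1 / p : ℝ) ^ (a + 1) := by positivity
      have h4 : (1 / p : ℝ) ^ (N + a + 4) = (1 / p : ℝ) ^ (a + 1) * (1 / p : ℝ) ^ (N + 3) := by
        rw [← pow_add]
        congr 1
        omega
      rw [h4] at h2
      exact (le_of_mul_le_mul_left h2 h3).trans (hle _ _ (by omega))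
    · have h1 : ‖((Units.map (τ' : M →* k) z : kˣ) : k) - 1‖ ≤ (1 / p : ℝ) ^ (N + a + 4) := hz2 τ' h
      exact (Pool.Agent.Helper59.RP.log_small L _ (N + a + 4) (by omega) h1).trans
        (hle _ _ (by omega))
  -- the quotient
  have hq : LocSig L (above T : Set (M →+* k)) (x / z) := by
    refine Pool.Agent.Helper59.RP.s_bin p k L M (above T) (x / z) fun τ' hτ' => ?_
    have hne : τ' (z : M) ≠ 0 := (_root_.map_ne_zero τ').2 z.ne_zero
    have e : τ' ((x / z : Mˣ) : M) - 1 = (τ' ((x : M) - (z : M))) / τ' (z : M) := by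
      rw [Units.val_div_eq_div_val, map_div₀, map_sub]
      field_simp
    rw [e, norm_div, hzn τ', div_one]
    by_cases h : wt p τ' = wt p τ
    · rw [norm_eq_of_wt h, map_sub]
      refine sub_trans hxτ ?_
      rw [norm_sub_rev]
      exact hz1.trans (hle _ _ (by omega))
    · rw [map_sub]
      refine sub_trans (hxτ' τ' hτ' h) ?_
      rw [norm_sub_rev]
      exact (hz2 τ' h).trans (hle _ _ (by omega))
  obtain ⟨y, hy⟩ := hq N
  refine ⟨y, ?_⟩
  have h1 := Pool.Agent.Helper90.RP.sig_mul L hy hsig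
  have e : x / z * y ^ p * z = x * y ^ p := by
    rw [div_mul_eq_mul_div, div_mul_cancel]
  rwa [e] at h1

end small

end Pool.Agent.Helper19.WY
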