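import Pool.Agent.Helper19.WY.TorB
import Pool.Agent.Helper53.PW.LCLO
import Pool.Agent.Helper27.PW.LDEN
import Pool.Agent.Helper15.PW.LISO
import Pool.Agent.Helper14.PW.LRT

/-!
# Project WY (MP_fc6b1e_nt), packet Y_TOR, part C

The root of unity and the decomposition group.
-/

set_option autoImplicit false

namespace Pool.Agent.Helper19.WY

open NumberField Polynomial Module IsDedekindDomain
open Pool.Agent.Helper51.RP Pool.Agent.Helper42.PP Pool.Agent.Helper38.WY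
open Pool.Agent.Helper51.SigLeo (IwasawaLog)

theorem c_zero {p : ℕ} [Fact p.Prime] {P : (ZMod p)[X]} (hP : Irreducible P) {c : ZMod p}
    (h : P ∣ C c) : c = 0 := by
  by_contra hc
  exact hP.not_isUnit (isUnit_of_dvd_unit h (isUnit_C.2 (isUnit_iff_ne_zero.2 hc)))

theorem ex_pow {p : ℕ} [hp : Fact p.Prime] {F : Type} [Field F] {ε : F}
    (hε : IsPrimitiveRoot ε p) (g : F →+* F) : ∃ n : ℕ, g ε = ε ^ n := by
  have : NeZero p := ⟨hp.out.ne_zero⟩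
  obtain ⟨i, -, hi⟩ := hε.eq_pow_of_pow_eq_one (ξ := g ε) (by
    rw [← map_pow, hε.pow_eq_one, map_one])
  exact ⟨i, hi.symm⟩

section loc

variable {p : ℕ} [hp : Fact p.Prime] {K M M₁ M₂ : Type} [Field K] [NumberField K] [Field M]
  [NumberField M] [Field M₁] [NumberField M₁] [Field M₂] [NumberField M₂] [Algebra K M]
  [Algebra K M₁] [Algebra K M₂] [Algebra M M₁] [Algebra M M₂] [Algebra M₁ M₂] {ε : M₁}
  {δ : M ≃ₐ[K] M} {P : (ZMod p)[X]} {α : M₂}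

/-- `τ₂(ε)` is in the closure of the image of `M`. -/
theorem eps_mem (hL : Y_LFT) (hG : SitG p K M M₁ M₂ ε δ P α) {σ : K →+* ℂ_[p]}
    (hO : OmP M₂ (algebraMap M₁ M₂ ε) δ P σ) (τ₂ : M₂ →+* ℂ_[p])
    (hτ₂ : τ₂.comp (algebraMap K M₂) = σ) (e : ℝ) (he : 0 < e) :
    ∃ x : M, ‖τ₂ (algebraMap M M₂ x) - τ₂ (algebraMap M₁ M₂ ε)‖ ≤ e := by
  have := hG.s1
  have := hG.s2
  have := hG.s3
  have := hG.s4
  have := hG.gM
  have := hG.gM₁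
  have := hG.gM₂
  have hMM : IsGalois M M₁ := IsGalois.tower_top_of_isGalois K M M₁
  obtain ⟨C₀, hC, hCx⟩ := Pool.Agent.Helper27.PW.l_den p ℂ_[p] M M₁ (τ₂.comp (algebraMap M₁ M₂))
  obtain ⟨x, hx⟩ := hCx ε (e / C₀) (by positivity) (by
    intro g hg
    obtain ⟨g', h1, h2⟩ := hL p K M₁ M₂ τ₂ (g.restrictScalars K) (fun y => hg y)
    obtain ⟨n, hn⟩ := ex_pow hG.prim (g : M₁ →+* M₁)
    have hn' : g ε = ε ^ n := hn
    have h3 := hO τ₂ hτ₂ g' 0 n h2 (fun x => by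
      rw [IsScalarTower.algebraMap_apply M M₁ M₂, h1, IsScalarTower.algebraMap_apply M M₁ M₂]
      show algebraMap M₁ M₂ (g (algebraMap M M₁ x)) = algebraMap M₁ M₂ (algebraMap M M₁ x)
      rw [g.commutes]) (by
      rw [h1, ← map_pow, ← hn']
      rfl)
    rw [pow_zero, ← C_1, ← C_sub] at h3
    have h4 : ((n : ℕ) : ZMod p) = 1 := (sub_eq_zero.1 (c_zero hG.irr h3)).symm
    have h5 : n ≡ 1 [MOD p] := by
      rw [← ZMod.natCast_eq_natCast_iff, h4, Nat.cast_one]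
    have h6 : ε ^ n = ε := by
      have := pow_eq_pow_of_modEq h5 hG.prim.pow_eq_one
      rwa [pow_one] at this
    have h7 : g ε = ε := by rw [hn', h6]
    rw [h7, sub_self, norm_zero]
    positivity)
  refine ⟨x, ?_⟩
  rw [mul_div_cancel₀ _ hC.ne'] at hx
  rw [IsScalarTower.algebraMap_apply M M₁ M₂]
  exact hx

/-- The local data at a place. -/
theorem loc_data (hL : Y_LFT) (hZ : Y_ZET) (hG : SitG p K M M₁ M₂ ε δ P α) {σ : K →+* ℂ_[p]}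
    (hO : OmP M₂ (algebraMap M₁ M₂ ε) δ P σ) (τ₂ : M₂ →+* ℂ_[p])
    (hτ₂ : τ₂.comp (algebraMap K M₂) = σ) (τ : M →+* ℂ_[p])
    (hτ : ∀ x, τ x = τ₂ (algebraMap M M₂ x)) :
    ∃ (𝓜 : IntermediateField ℚ_[p] ℂ_[p]) (ζ : 𝓜) (a : ℕ), FiniteDimensional ℚ_[p] 𝓜 ∧
      (∀ x : M, τ x ∈ 𝓜) ∧ (∀ t : ℂ_[p], t ∈ closure (Set.range τ) ↔ t ∈ 𝓜) ∧
      ζ ^ p ^ (a + 1) = 1 ∧ (∀ k : ℤ, (∃ t : 𝓜, t ≠ 0 ∧ t ^ p = ζ ^ k) → (p : ℤ) ∣ k) ∧
      ∀ l : ℕ, (∀ y : M, ‖τ ((δ ^ l) y)‖ = ‖τ y‖) →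
        ∃ n : ℕ, P ∣ X ^ l - C ((n : ℕ) : ZMod p) ∧
          ∀ z : M, ‖τ ((δ ^ l) z) - (ζ : ℂ_[p]) ^ n‖ = ‖τ z - ζ‖ := by
  have := hG.s1
  have := hG.s2
  have := hG.s3
  have := hG.s4
  have := hG.gM
  have := hG.gM₁
  have := hG.gM₂
  obtain ⟨𝓜, hfd, hm, hdense, hext⟩ := Pool.Agent.Helper53.PW.l_clo p ℂ_[p] M τ
  have hcl : IsClosed ((𝓜 : IntermediateField ℚ_[p] ℂ_[p]) : Set ℂ_[p]) := by
    have h1 := Submodule.closed_of_finiteDimensional (𝓜.toSubalgebra.toSubmodule)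
    exact h1
  have hclo : ∀ t : ℂ_[p], t ∈ closure (Set.range τ) ↔ t ∈ 𝓜 := by
    intro t
    constructor
    · intro h
      refine closure_minimal ?_ hcl h
      rintro _ ⟨x, rfl⟩
      exact hm x
    · intro h
      refine Metric.mem_closure_iff.2 fun e he => ?_
      obtain ⟨x, hx⟩ := hdense t h e he
      refine ⟨τ x, ⟨x, rfl⟩, ?_⟩
      rw [dist_eq_norm]
      exact hx
  have hεm : τ₂ (algebraMap M₁ M₂ ε) ∈ 𝓜 := by
    rw [← hclo]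
    refine Metric.mem_closure_iff.2 fun e he => ?_
    obtain ⟨x, hx⟩ := eps_mem hL hG hO τ₂ hτ₂ (e / 2) (by positivity)
    refine ⟨τ x, ⟨x, rfl⟩, ?_⟩
    rw [dist_comm, dist_eq_norm, hτ]
    linarith
  obtain ⟨ε', hε'⟩ : ∃ ε' : 𝓜, (ε' : ℂ_[p]) = τ₂ (algebraMap M₁ M₂ ε) := ⟨⟨_, hεm⟩, rfl⟩
  have hprim₂ : IsPrimitiveRoot (algebraMap M₁ M₂ ε) p :=
    hG.prim.map_of_injective (algebraMap M₁ M₂).injective
  have hprim' : IsPrimitiveRoot ε' p := by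
    have h1 : IsPrimitiveRoot (τ₂ (algebraMap M₁ M₂ ε)) p := hprim₂.map_of_injective τ₂.injective
    rw [← hε'] at h1
    exact IsPrimitiveRoot.of_map_of_injective (f := 𝓜.val) h1 𝓜.val.injective
  obtain ⟨ζ, a, u, hζ1, hζ2, hu, hζ3⟩ := hZ p 𝓜 ε' hprim'
  have hord : orderOf ζ = p ^ (a + 1) := by
    refine orderOf_eq_prime_pow ?_ hζ1
    intro h
    rw [hζ2] at h
    have h1 := (hprim'.pow_eq_one_iff_dvd u).1 h
    have h2 : p ∣ 1 := by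
      rw [← Nat.Coprime.gcd_eq_one hu]
      exact Nat.dvd_gcd h1 dvd_rfl
    exact hp.out.one_lt.ne' (Nat.dvd_one.1 h2)
  have hζp : IsPrimitiveRoot ζ (p ^ (a + 1)) := by
    rw [← hord]
    exact IsPrimitiveRoot.orderOf ζ
  have : NeZero (p ^ (a + 1)) := ⟨pow_ne_zero _ hp.out.ne_zero⟩
  refine ⟨𝓜, ζ, a, hfd, hm, hclo, hζ1, hζ3, ?_⟩
  intro l hl
  obtain ⟨g', h1, h2⟩ := hL p K M M₂ τ₂ (δ ^ l) (fun y => by rw [← hτ, ← hτ]; exact hl y)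
  obtain ⟨n₀, hn₀⟩ := ex_pow hprim₂ (g' : M₂ →+* M₂)
  have hn₀' : g' (algebraMap M₁ M₂ ε) = (algebraMap M₁ M₂ ε) ^ n₀ := hn₀
  have h3 := hO τ₂ hτ₂ g' l n₀ h2 h1 hn₀'
  obtain ⟨G, hGx⟩ := hext (((δ ^ l : M ≃ₐ[K] M) : M ≃+* M)) hl
  have hiso : ∀ y : 𝓜, ‖((G y : 𝓜) : ℂ_[p])‖ = ‖((y : 𝓜) : ℂ_[p])‖ := fun y =>
    Pool.Agent.Helper15.PW.l_iso p 𝓜 G y
  have hGx' : ∀ x : M, ((G ⟨τ x, hm x⟩ : 𝓜) : ℂ_[p]) = τ ((δ ^ l) x) := hGx
  -- the action on `ε'`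
  have hGε : G ε' = ε' ^ n₀ := by
    have hy : ∀ e : ℝ, 0 < e → ‖((G ε' - ε' ^ n₀ : 𝓜) : ℂ_[p])‖ ≤ e := by
      intro e he
      obtain ⟨x, hx⟩ := eps_mem hL hG hO τ₂ hτ₂ e he
      have e1 : ‖((G ε' : 𝓜) : ℂ_[p]) - τ ((δ ^ l) x)‖ ≤ e := by
        rw [← hGx', ← AddSubgroupClass.coe_sub, ← map_sub, hiso, AddSubgroupClass.coe_sub, hε',
          norm_sub_rev]
        show ‖τ x - _‖ ≤ e
        rw [hτ]
        exact hx
      have e2 : ‖τ ((δ ^ l) x) - ((ε' ^ n₀ : 𝓜) : ℂ_[p])‖ ≤ e := by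
        have e3 : τ ((δ ^ l) x) - ((ε' ^ n₀ : 𝓜) : ℂ_[p]) =
            τ₂ (g' (algebraMap M M₂ x - algebraMap M₁ M₂ ε)) := by
          rw [map_sub, map_sub, h1, ← hτ, hn₀', map_pow, ← hε']
          rfl
        rw [e3, h2, map_sub]
        exact hx
      rw [AddSubgroupClass.coe_sub]
      exact sub_trans e1 e2
    have h8 : ‖((G ε' - ε' ^ n₀ : 𝓜) : ℂ_[p])‖ ≤ 0 := le_of_forall_pos_le_add fun e he => by
      rw [zero_add]
      exact hy e he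
    have h9 : G ε' - ε' ^ n₀ = 0 := Subtype.ext (norm_le_zero_iff.1 h8)
    exact sub_eq_zero.1 h9
  obtain ⟨n, -, hn⟩ := hζp.eq_pow_of_pow_eq_one (ξ := G ζ) (by rw [← map_pow, hζ1, map_one])
  have hnn : ((n : ℕ) : ZMod p) = n₀ := by
    have e1 : ε' ^ (u * n) = ε' ^ (u * n₀) := by
      rw [pow_mul, ← hζ2, ← pow_mul, mul_comm, pow_mul, hn, ← map_pow, hζ2, map_pow, hGε,
        ← pow_mul, mul_comm]
    have e2 := (hprim'.isOfFinOrder hp.out.ne_zero).pow_eq_pow_iff_modEq.1 e1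
    rw [← hprim'.eq_orderOf] at e2
    have e3 : n ≡ n₀ [MOD p] := Nat.ModEq.cancel_left_of_coprime (by
      rw [Nat.coprime_comm] at hu
      exact hu) e2
    exact (ZMod.natCast_eq_natCast_iff _ _ _).2 e3
  refine ⟨n, by rw [hnn]; exact h3, fun z => ?_⟩
  have e1 : (ζ : ℂ_[p]) ^ n = ((G ζ : 𝓜) : ℂ_[p]) := by
    rw [← hn]
    rfl
  rw [← hGx', e1, ← AddSubgroupClass.coe_sub, ← map_sub, hiso]
  rfl

end loc

end Pool.Agent.Helper19.WY
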