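import Pool.Agent.Helper19.WY.TorC

/-!
# Project WY (MP_fc6b1e_nt), packet Y_TOR

A torsion element at a place where the representation is isomorphic to the cyclotomic character.
-/

set_option autoImplicit false

namespace Pool.Agent.Helper19.WY

open NumberField Polynomial Module IsDedekindDomain
open Pool.Agent.Helper51.RP Pool.Agent.Helper42.PP Pool.Agent.Helper38.WY
open Pool.Agent.Helper32.RDV (wt)
open Pool.Agent.Helper51.SigLeo (IwasawaLog)

section pwt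

variable {p : ℕ} [hp : Fact p.Prime] {F : Type} [Field F]

theorem pwT_one (τ : F →+* ℂ_[p]) : PwT p τ (1 : F) :=
  ⟨1, subset_closure ⟨1, map_one τ⟩, by rw [one_pow, map_one]⟩

theorem pwT_mul (τ : F →+* ℂ_[p]) {x y : F} (hx : PwT p τ x) (hy : PwT p τ y) :
    PwT p τ (x * y) := by
  obtain ⟨s, hs, hsx⟩ := hx
  obtain ⟨t, ht, hty⟩ := hy
  refine ⟨s * t, map_mem_closure₂ continuous_mul hs ht ?_, by rw [mul_pow, hsx, hty, map_mul]⟩
  rintro _ ⟨a, rfl⟩ _ ⟨b, rfl⟩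
  exact ⟨a * b, map_mul τ a b⟩

theorem pwT_pow (τ : F →+* ℂ_[p]) {x : F} (hx : PwT p τ x) (n : ℕ) : PwT p τ (x ^ n) := by
  induction n with
  | zero =>
    rw [pow_zero]
    exact pwT_one τ
  | succ n ih =>
    rw [pow_succ]
    exact pwT_mul τ ih hx

theorem pwT_prod (τ : F →+* ℂ_[p]) (s : Finset ℕ) (f : ℕ → F) (h : ∀ j, PwT p τ (f j)) :
    PwT p τ (∏ j ∈ s, f j) := by
  classical
  induction s using Finset.induction_on with
  | empty =>
    rw [Finset.prod_empty]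
    exact pwT_one τ
  | insert a s ha ih =>
    rw [Finset.prod_insert ha]
    exact pwT_mul τ (h a) ih

theorem pwT_close [NumberField F] (τ : F →+* ℂ_[p]) (x : F) (h : ‖τ x - 1‖ ≤ (1 / p : ℝ) ^ 3) :
    PwT p τ x := by
  obtain ⟨𝓜, hfd, hm, hdense, -⟩ := Pool.Agent.Helper53.PW.l_clo p ℂ_[p] F τ
  obtain ⟨v, hv, -⟩ := (Pool.Agent.Helper14.PW.l_rt p 𝓜).1 ⟨τ x, hm x⟩ h
  refine ⟨v, ?_, congrArg (fun z : 𝓜 => (z : ℂ_[p])) hv⟩
  refine Metric.mem_closure_iff.2 fun e he => ?_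
  obtain ⟨y, hy⟩ := hdense v v.2 e he
  refine ⟨τ y, ⟨y, rfl⟩, ?_⟩
  rw [dist_eq_norm]
  exact hy

end pwt

theorem pol_val {p : ℕ} [Fact p.Prime] {K M : Type} [Field K] [Field M] [Algebra K M] (E : (ZMod p)[X])
    (δ : M ≃ₐ[K] M) (x : Mˣ) : ((pol E δ x : Mˣ) : M) =
      ∏ j ∈ E.support, ((δ ^ j) (x : M)) ^ (E.coeff j).val := by
  rw [Pool.Agent.Helper91.PP.pol_apply, Units.coe_prod]
  rfl

theorem not_dvd {p : ℕ} [hp : Fact p.Prime] {m : ℕ} (hm : m.Coprime p) {P E : (ZMod p)[X]}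
    (hP : Irreducible P) (h : X ^ m - 1 = P * E) : ¬ P ∣ E := by
  intro hd
  have h0 : ((m : ℕ) : ZMod p) ≠ 0 := by
    intro h
    rw [ZMod.natCast_eq_zero_iff] at h
    have h2 : p ∣ 1 := by
      rw [← Nat.Coprime.gcd_eq_one hm]
      exact Nat.dvd_gcd h dvd_rfl
    exact hp.out.one_lt.ne' (Nat.dvd_one.mp h2)
  have hsep : (X ^ m - 1 : (ZMod p)[X]).Separable := by
    simpa using Polynomial.separable_X_pow_sub_C (1 : ZMod p) h0 one_ne_zero
  rw [h] at hsep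
  exact hP.not_isUnit (hsep.isCoprime.isUnit_of_dvd' dvd_rfl hd)

theorem y_tor (hL : Y_LFT) (hZ : Y_ZET) : Y_TOR := by
  classical
  intro p hp K M M₁ M₂ _ _ _ _ _ _ _ _ _ _ _ _ _ _ ε δ P α hG L T S 𝔪₀ v hS σ hσ hO
  have := hG.s1
  have := hG.s2
  have := hG.s3
  have := hG.s4
  have := hG.gM
  have := hG.gM₁
  have := hG.gM₂
  -- the extension of `σ`
  obtain ⟨τ₂, hτ₂⟩ : ∃ τ₂ : M₂ →+* ℂ_[p], τ₂.comp (algebraMap K M₂) = σ := by
    let _ := σ.toAlgebra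
    have f : M₂ →ₐ[K] ℂ_[p] := IsAlgClosed.lift
    exact ⟨(f : M₂ →+* ℂ_[p]), RingHom.ext fun y => f.commutes y⟩
  obtain ⟨τ, hτx⟩ : ∃ τ : M →+* ℂ_[p], ∀ x, τ x = τ₂ (algebraMap M M₂ x) :=
    ⟨τ₂.comp (algebraMap M M₂), fun _ => rfl⟩
  have hτσ : τ.comp (algebraMap K M) = σ := by
    rw [← hτ₂]
    ext y
    show τ (algebraMap K M y) = τ₂ (algebraMap K M₂ y)
    rw [hτx, ← IsScalarTower.algebraMap_apply K M M₂]
  have hτT : τ ∈ (above T : Set (M →+* ℂ_[p])) := by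
    show τ.comp (algebraMap K M) ∈ T
    rw [hτσ]
    exact hσ
  obtain ⟨𝓜, ζ, a, hfd, hm, hclo, hζ1, hζ3, hdec⟩ := loc_data hL hZ hG hO τ₂ hτ₂ τ hτx
  have hζ1' : (ζ : ℂ_[p]) ^ p ^ (a + 1) = 1 := congrArg (fun z : 𝓜 => (z : ℂ_[p])) hζ1
  obtain ⟨x, hxv, hxL, hxτ, hxτ'⟩ := choose_x hS L hτT hζ1' ((hclo ζ).2 ζ.2)
  have hζn : ‖(ζ : ℂ_[p])‖ = 1 := by
    have h1 : ‖(ζ : ℂ_[p])‖ ^ p ^ (a + 1) = 1 := by rw [← norm_pow, hζ1', norm_one]
    exact (pow_eq_one_iff_of_nonneg (norm_nonneg _) (pow_ne_zero _ hp.out.ne_zero)).1 h1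
  have hζ0 : ζ ≠ 0 := by
    rintro rfl
    rw [ZeroMemClass.coe_zero, norm_zero] at hζn
    exact zero_ne_one hζn
  obtain ⟨m, hmdef⟩ : ∃ m, m = finrank K M := ⟨_, rfl⟩
  have hδm : δ ^ m = 1 := by
    rw [hmdef, ← hG.ord]
    exact pow_orderOf_eq_one δ
  have hm0 : 0 < m := by
    rw [hmdef]
    exact finrank_pos
  have hcop : m.Coprime p := by
    have h1 := hG.cop
    rw [← finrank_mul_finrank K M M₁, ← hmdef] at h1
    exact Nat.Coprime.coprime_dvd_left (dvd_mul_right _ _) h1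
  have hdvd : P ∣ X ^ m - 1 := by
    rw [hmdef]
    exact hG.dvdP
  obtain ⟨E, hE⟩ := hdvd
  have hPE := not_dvd hcop hG.irr hE
  obtain ⟨ξ, hξ⟩ : ∃ ξ : Mˣ, ξ = pol E δ x := ⟨_, rfl⟩
  have hξv : (ξ : M) = ∏ j ∈ E.support, ((δ ^ j) (x : M)) ^ (E.coeff j).val := by
    rw [hξ, pol_val]
  obtain ⟨H, hHm, hHp, hHδ⟩ := Pool.Agent.Helper90.RP.s_sub p ℂ_[p] L K M δ T S 𝔪₀ v hS
  have hact : ∀ j : ℕ, act (δ ^ j) x ∈ H := by
    intro j
    induction j with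
    | zero => exact (hHm x).2 ⟨hxv, hxL⟩
    | succ j ih =>
      rw [Pool.Agent.Helper91.PP.act_pow_succ]
      exact hHδ _ ih
  have hξH : ξ ∈ H := by
    rw [hξ, Pool.Agent.Helper91.PP.pol_apply]
    exact Subgroup.prod_mem _ fun j _ => Subgroup.pow_mem _ (hact j) _
  -- the embeddings `τ' ∘ δ ^ j`
  have hab : ∀ τ' ∈ (above T : Set (M →+* ℂ_[p])), ∀ j : ℕ,
      τ'.comp ((δ ^ j : M ≃ₐ[K] M) : M →+* M) ∈ (above T : Set (M →+* ℂ_[p])) ∧
      (τ'.comp ((δ ^ j : M ≃ₐ[K] M) : M →+* M)).comp (algebraMap K M) =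
        τ'.comp (algebraMap K M) := by
    intro τ' hτ' j
    have e : (τ'.comp ((δ ^ j : M ≃ₐ[K] M) : M →+* M)).comp (algebraMap K M) =
        τ'.comp (algebraMap K M) := by
      ext y
      show τ' ((δ ^ j) (algebraMap K M y)) = τ' (algebraMap K M y)
      rw [(δ ^ j).commutes]
    refine ⟨?_, e⟩
    show (τ'.comp ((δ ^ j : M ≃ₐ[K] M) : M →+* M)).comp (algebraMap K M) ∈ T
    rw [e]
    exact hτ'
  refine ⟨ξ, by rw [hξ]; exact pw_pol hδm hE.symm x, ((hHm ξ).1 hξH).1, ((hHm ξ).1 hξH).2, ?_, ?_⟩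
  · intro τ' hτ' hns
    rw [hξv]
    refine pwT_prod τ' _ _ fun j => pwT_pow τ' (pwT_close τ' _ ?_) _
    obtain ⟨h1, h2⟩ := hab τ' hτ' j
    refine hxτ' _ h1 fun hw => hns fun y => ?_
    have h3 := norm_eq_of_wt hw (algebraMap K M y)
    have h4 : (τ'.comp ((δ ^ j : M ≃ₐ[K] M) : M →+* M)) (algebraMap K M y) =
        (τ'.comp (algebraMap K M)) y := congrArg (fun f : K →+* ℂ_[p] => f y) h2
    have h5 : τ (algebraMap K M y) = σ y := congrArg (fun f : K →+* ℂ_[p] => f y) hτσ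
    rw [h4, h5] at h3
    exact h3
  · by_contra hcon
    have hall : ∀ l : ℕ, ∃ s : 𝓜, (s : ℂ_[p]) ^ p = τ ((δ ^ l) (ξ : M)) := by
      intro l
      by_contra hn
      apply hcon
      obtain ⟨h1, h2⟩ := hab τ hτT l
      refine ⟨_, h1, ?_, ?_⟩
      · rw [h2, hτσ]
        exact fun _ => rfl
      · rintro ⟨t, ht, htp⟩
        have h3 : t ∈ closure (Set.range τ) := by
          refine closure_mono ?_ ht
          rintro _ ⟨y, rfl⟩
          exact ⟨(δ ^ l) y, rfl⟩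
        exact hn ⟨⟨t, (hclo t).1 h3⟩, htp⟩
    -- roots of elements close to `1`
    have hroot : ∀ y : 𝓜, ‖(y : ℂ_[p]) - 1‖ ≤ (1 / p : ℝ) ^ 3 → ∃ t : 𝓜, t ≠ 0 ∧ t ^ p = y := by
      intro y hy
      obtain ⟨t, ht, -⟩ := (Pool.Agent.Helper14.PW.l_rt p 𝓜).1 y hy
      refine ⟨t, ?_, ht⟩
      rintro rfl
      rw [zero_pow hp.out.ne_zero] at ht
      rw [← ht, ZeroMemClass.coe_zero, zero_sub, norm_neg, norm_one] at hy
      obtain ⟨q0, q1⟩ := q_bd p
      have := pow_lt_one₀ q0.le q1 (show 3 ≠ 0 by norm_num)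
      linarith
    -- the decomposition group and the exponents
    obtain ⟨D, hD⟩ : ∃ D : ℕ → Prop, ∀ l, D l ↔ ∀ y : M, ‖τ ((δ ^ l) y)‖ = ‖τ y‖ :=
      ⟨_, fun _ => Iff.rfl⟩
    have hex : ∀ l : ℕ, ∃ n : ℕ, (¬ D l → n = 0) ∧ (D l → P ∣ X ^ l - C ((n : ℕ) : ZMod p) ∧
        ∀ z : M, ‖τ ((δ ^ l) z) - (ζ : ℂ_[p]) ^ n‖ = ‖τ z - ζ‖) := by
      intro l
      by_cases h : D l
      · obtain ⟨n, hn⟩ := hdec l ((hD l).1 h)
        exact ⟨n, fun h' => absurd h h', fun _ => hn⟩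
      · exact ⟨0, fun _ => rfl, fun h' => absurd h' h⟩
    choose n hn0 hn1 using hex
    have hstar : ∀ l : ℕ, ∃ t : 𝓜, t ≠ 0 ∧ τ ((δ ^ l) (x : M)) = ((ζ ^ n l * t ^ p : 𝓜) : ℂ_[p]) := by
      intro l
      by_cases h : D l
      · have h1 := (hn1 l h).2 (x : M)
        have hz0 : (ζ : ℂ_[p]) ^ n l ≠ 0 := by
          rw [← norm_pos_iff, norm_pow, hζn, one_pow]
          exact one_pos
        obtain ⟨t, ht0, ht⟩ := hroot (⟨τ ((δ ^ l) (x : M)), hm _⟩ * (ζ ^ n l)⁻¹) (by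
          have e : ((⟨τ ((δ ^ l) (x : M)), hm _⟩ * (ζ ^ n l)⁻¹ : 𝓜) : ℂ_[p]) - 1 =
              (τ ((δ ^ l) (x : M)) - (ζ : ℂ_[p]) ^ n l) * ((ζ : ℂ_[p]) ^ n l)⁻¹ := by
            rw [sub_mul, mul_inv_cancel₀ hz0]
            rfl
          rw [e, norm_mul, norm_inv, norm_pow, hζn, one_pow, inv_one, mul_one, h1]
          exact hxτ)
        refine ⟨t, ht0, ?_⟩
        rw [ht, mul_comm, mul_assoc, inv_mul_cancel₀ (pow_ne_zero _ hζ0), mul_one]
      · have hw : wt p (τ.comp ((δ ^ l : M ≃ₐ[K] M) : M →+* M)) ≠ wt p τ := by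
          intro hw
          exact h ((hD l).2 fun y => norm_eq_of_wt hw y)
        have h1 := hxτ' _ (hab τ hτT l).1 hw
        obtain ⟨t, ht0, ht⟩ := hroot ⟨τ ((δ ^ l) (x : M)), hm _⟩ h1
        refine ⟨t, ht0, ?_⟩
        rw [ht, hn0 l h, pow_zero, one_mul]
    choose t ht0 ht using hstar
    -- the recurrence
    have hrec : ∀ l : ℕ, ∑ j ∈ E.support, E.coeff j * ((n (l + j) : ℕ) : ZMod p) = 0 := by
      intro l
      obtain ⟨s, hs⟩ := hall l
      have e1 : τ ((δ ^ l) (ξ : M)) = ((∏ j ∈ E.support,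
          (ζ ^ n (l + j) * t (l + j) ^ p) ^ (E.coeff j).val : 𝓜) : ℂ_[p]) := by
        rw [hξv, map_prod, map_prod]
        have e2 : ((∏ j ∈ E.support, (ζ ^ n (l + j) * t (l + j) ^ p) ^ (E.coeff j).val : 𝓜) :
            ℂ_[p]) = ∏ j ∈ E.support,
              ((ζ ^ n (l + j) * t (l + j) ^ p : 𝓜) : ℂ_[p]) ^ (E.coeff j).val := by
          exact map_prod 𝓜.val _ _
        rw [e2]
        refine Finset.prod_congr rfl fun j _ => ?_
        rw [map_pow, map_pow, ← ht, pow_add]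
        rfl
      have e3 : s ^ p = ∏ j ∈ E.support, (ζ ^ n (l + j) * t (l + j) ^ p) ^ (E.coeff j).val :=
        Subtype.ext (hs.trans e1)
      have e4 : ∏ j ∈ E.support, (ζ ^ n (l + j) * t (l + j) ^ p) ^ (E.coeff j).val =
          ζ ^ (∑ j ∈ E.support, n (l + j) * (E.coeff j).val) *
            (∏ j ∈ E.support, t (l + j) ^ (E.coeff j).val) ^ p := by
        rw [← Finset.prod_pow_eq_pow_sum, ← Finset.prod_pow, ← Finset.prod_mul_distrib]
        refine Finset.prod_congr rfl fun j _ => ?_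
        rw [mul_pow, ← pow_mul, ← pow_mul, ← pow_mul, mul_comm p]
      set N : ℕ := ∑ j ∈ E.support, n (l + j) * (E.coeff j).val with hN
      set W : 𝓜 := ∏ j ∈ E.support, t (l + j) ^ (E.coeff j).val with hW
      have hW0 : W ≠ 0 := Finset.prod_ne_zero_iff.2 fun j _ => pow_ne_zero _ (ht0 _)
      have hs0 : s ≠ 0 := by
        intro h0
        have h1 := e3.trans e4
        rw [h0, zero_pow hp.out.ne_zero] at h1
        exact mul_ne_zero (pow_ne_zero _ hζ0) (pow_ne_zero _ hW0) h1.symm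
      have h1 := hζ3 (N : ℤ) ⟨s / W, div_ne_zero hs0 hW0, by
        rw [div_pow, e3, e4, mul_div_assoc, div_self (pow_ne_zero _ hW0), mul_one, zpow_natCast]⟩
      have h2 : ((N : ℕ) : ZMod p) = 0 := by
        rw [ZMod.natCast_eq_zero_iff]
        exact_mod_cast h1
      rw [hN, Nat.cast_sum] at h2
      rw [← h2]
      refine Finset.sum_congr rfl fun j _ => ?_
      rw [Nat.cast_mul, ZMod.natCast_zmod_val, mul_comm]
    -- the linear algebra
    have hDex : ∃ d, 0 < d ∧ D d := ⟨m, hm0, (hD m).2 fun y => by rw [hδm]; rfl⟩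
    obtain ⟨hd0, hdD⟩ := Nat.find_spec hDex
    set d := Nat.find hDex with hd
    have hdmin : ∀ l, 0 < l → l < d → ¬ D l := fun l hl hld hDl =>
      Nat.find_min hDex hld ⟨hl, hDl⟩
    have hDd := (hD d).1 hdD
    have hshift : ∀ l, D (l + d) ↔ D l := by
      intro l
      have e : ∀ y : M, (δ ^ (l + d)) y = (δ ^ d) ((δ ^ l) y) := by
        intro y
        rw [add_comm, pow_add]
        rfl
      rw [hD, hD]
      refine forall_congr' fun y => ?_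
      rw [e, hDd]
    apply hPE
    refine dvd_of_rec (a := fun l => ((n l : ℕ) : ZMod p)) hd0 ?_ ?_ ?_ (hn1 d hdD).1 hrec
    · intro l hl hld
      show ((n l : ℕ) : ZMod p) = 0
      rw [hn0 l (hdmin l hl hld), Nat.cast_zero]
    · intro h0
      have h1 := (hn1 d hdD).1
      have h0' : ((n d : ℕ) : ZMod p) = 0 := h0
      rw [h0', C_0, sub_zero] at h1
      have h2 : P ∣ X := hG.irr.prime.dvd_of_dvd_pow h1
      have h3 : P ∣ X ^ m := dvd_pow h2 hm0.ne'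
      have h4 : P ∣ X ^ m - 1 := ⟨E, hE⟩
      have h5 : P ∣ 1 := by
        have := dvd_sub h3 h4
        rwa [sub_sub_cancel] at this
      exact hG.irr.not_isUnit (isUnit_of_dvd_one h5)
    · intro l
      show ((n (l + d) : ℕ) : ZMod p) = ((n d : ℕ) : ZMod p) * ((n l : ℕ) : ZMod p)
      by_cases h : D l
      · have h1 := (hn1 (l + d) ((hshift l).2 h)).1
        have h2 := (hn1 l h).1
        have h3 := (hn1 d hdD).1
        have h4 : P ∣ C (((n (l + d) : ℕ) : ZMod p) - ((n d : ℕ) : ZMod p) * ((n l : ℕ) : ZMod p)) := by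
          have e : C (((n (l + d) : ℕ) : ZMod p) - ((n d : ℕ) : ZMod p) * ((n l : ℕ) : ZMod p)) =
              X ^ l * (X ^ d - C ((n d : ℕ) : ZMod p)) +
                C ((n d : ℕ) : ZMod p) * (X ^ l - C ((n l : ℕ) : ZMod p)) -
                (X ^ (l + d) - C ((n (l + d) : ℕ) : ZMod p)) := by
            rw [C_sub, C_mul]
            ring
          rw [e]
          exact dvd_sub (dvd_add (h3.mul_left _) (h2.mul_left _)) h1
        exact sub_eq_zero.1 (c_zero hG.irr h4)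
      · rw [hn0 l h, hn0 (l + d) (fun h' => h ((hshift l).1 h')), Nat.cast_zero, mul_zero]

end Pool.Agent.Helper19.WY
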